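import Pool.Agent.P.MP_3a4479_al.AP.Ex

set_option autoImplicit false

namespace Pool.Agent.Results.MP_3a4479_al.SolidDomain

open Pool.Agent.P.MP_3a4479_al

universe u

/-- In every prime characteristic, a three dimensional F-finite local splinter with a solid domain
of finite type over it that does not split; an ideal of the splinter is not contracted from it. -/
theorem result (p : ℕ) (hp : p.Prime) :
    ∃ (k R : Type) (_ : Field k) (_ : IsAlgClosed k) (_ : CharP k p) (_ : CommRing R)
      (_ : IsDomain R) (_ : IsNoetherianRing R) (_ : IsLocalRing R) (_ : Algebra k R)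
      (_ : ExpChar R p), Algebra.EssFiniteType k R ∧ ringKrullDim R = 3 ∧
      (frobenius R p).Finite ∧
      (∀ (T : Type u) [CommRing T] [Algebra R T], Function.Injective (algebraMap R T) →
        Module.Finite R T → ∃ ρ : T →ₗ[R] R, ρ 1 = 1) ∧
      ∃ (S : Type) (_ : CommRing S) (_ : IsDomain S) (_ : Algebra R S),
        Algebra.FiniteType R S ∧ (∃ φ : S →ₗ[R] R, φ ≠ 0) ∧ (¬ ∃ ρ : S →ₗ[R] R, ρ 1 = 1) ∧
        ∃ I : Ideal R, (I.map (algebraMap R S)).comap (algebraMap R S) ≠ I := by
  have : Fact p.Prime := ⟨hp⟩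
  obtain ⟨k, R, _, _, _, _, _, _, _, _, _, h1, h2, h3, h4, S, _, _, _, h5, h6, n, g, u, Y, h7,
    h8⟩ := AP.example_ring' AP.partB p
  refine ⟨k, R, inferInstance, inferInstance, inferInstance, inferInstance, inferInstance,
    inferInstance, inferInstance, inferInstance, inferInstance, h1, h2, h3,
    fun T _ _ => CompatAux.splinter_univ h4 T, S, inferInstance, inferInstance, inferInstance,
    h5, h6, ?_, Ideal.span (Set.range g), fun hI => ?_⟩
  · rintro ⟨ρ, hρ⟩
    refine h8 (fun i => ρ (Y i)) ?_
    have e1 : ∀ (r : R) (s : S), ρ (algebraMap R S r * s) = r * ρ s := fun r s => by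
      rw [← Algebra.smul_def, map_smul, smul_eq_mul]
    have e2 := e1 u 1
    rw [hρ, mul_one, mul_one, h7, map_sum] at e2
    rw [← e2]
    exact Finset.sum_congr rfl fun i _ => by rw [e1, mul_comm]
  · have hu : u ∈ Ideal.span (Set.range g) := by
      rw [← hI, Ideal.mem_comap, h7]
      exact Ideal.sum_mem _ fun i _ => Ideal.mul_mem_right _ _
        (Ideal.mem_map_of_mem _ (Ideal.subset_span ⟨i, rfl⟩))
    obtain ⟨r, hr⟩ := Ideal.mem_span_range_iff_exists_fun.1 hu
    exact h8 r hr.symm

end Pool.Agent.Results.MP_3a4479_al.SolidDomain
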